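import Pool.Agent.helper63.TI.SpecA

/-!
Row ta:AP1 of project ti (MP_3703a7_ag): sums and multiples of approximated families.
-/

set_option autoImplicit false

namespace Pool.Agent.TI

open Polynomial NumberField Pool.Agent.GJ Pool.Agent.TK Pool.Agent.TQ Pool.Agent.TFQ Pool.Agent.TD Pool.Agent.AQ
open Pool.Agent.FJ (VT Om chiO IsFrobO rf rs)
open scoped TensorProduct

noncomputable section

theorem AP1_smul {q : ℕ} [Fact q.Prime] {V : Type} [AddCommGroup V] [Module ℚ_[q] V] {T : AddSubgroup V} (hT : Lat q T)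
    {z : ℚ_[q]} (hz : ‖z‖ ≤ 1) {t : V} (ht : t ∈ T) : z • t ∈ T := by
  obtain ⟨N, b, hb⟩ := hT
  rw [hb] at ht ⊢
  intro j
  rw [map_smul, Finsupp.smul_apply, smul_eq_mul, norm_mul]
  exact mul_le_one₀ hz (norm_nonneg _) (ht j)

theorem AP1_qpow {q : ℕ} [Fact q.Prime] (n : ℕ) : ‖((q : ℚ_[q]) ^ n)‖ ≤ 1 := by
  rw [norm_pow]
  refine pow_le_one₀ (norm_nonneg _) ?_
  rw [Padic.norm_p]
  have hq : (1 : ℝ) ≤ q := by exact_mod_cast (Fact.out : q.Prime).one_lt.le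
  exact inv_le_one_of_one_le₀ hq

theorem AP1_nat {q : ℕ} [Fact q.Prime] (n : ℕ) : ‖(n : ℚ_[q])‖ ≤ 1 := by
  exact_mod_cast Padic.norm_int_le_one (n : ℤ)

theorem AP1_b (hNRA : NRA_stmt) {q : ℕ} [Fact q.Prime] {V : Type} [AddCommGroup V] [Module ℚ_[q] V] {T : AddSubgroup V}
    (hT : Lat q T) (Y : V →ₗ[ℚ_[q]] V) : ∃ b : ℕ, ∀ N ≥ b, ∀ t ∈ T, (q : ℚ_[q]) ^ N • Y t ∈ T := by
  obtain ⟨b, hb⟩ := (hNRA q V T hT).2.1 Y
  refine ⟨b, fun N hN t ht => ?_⟩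
  have h := hb N hN (LinearMap.id + (q : ℚ_[q]) ^ N • Y) 0 (by
    intro t ht
    exact ⟨0, T.zero_mem, by simp⟩) t ht
  have h2 : (LinearMap.id + (q : ℚ_[q]) ^ N • Y : V →ₗ[ℚ_[q]] V) t = t + (q : ℚ_[q]) ^ N • Y t := by simp
  rw [h2] at h
  have := T.sub_mem h ht
  simpa using this

/-- powers -/
theorem AP1_pow {q : ℕ} [Fact q.Prime] {V : Type} [AddCommGroup V] [Module ℚ_[q] V] {T : AddSubgroup V}
    (hT : Lat q T) (H Y : Module.End ℚ_[q] V) (b N m : ℕ) (hb : ∀ t ∈ T, (q : ℚ_[q]) ^ b • Y t ∈ T) (hN : m + 2 * b ≤ N)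
    (hH : Nr T H Y N m) (hHT : ∀ t ∈ T, H t ∈ T) :
    ∀ j : ℕ, ∀ t ∈ T, ∃ t' ∈ T, (H ^ j) t = t + (q : ℚ_[q]) ^ N • ((j : ℚ_[q]) • Y t) + (q : ℚ_[q]) ^ (N + m) • t' := by
  have hq0 : (q : ℚ_[q]) ≠ 0 := by exact_mod_cast (Fact.out : q.Prime).ne_zero
  intro j
  induction j with
  | zero => intro t ht; exact ⟨0, T.zero_mem, by simp⟩
  | succ j ih =>
    intro t ht
    obtain ⟨t1, ht1, e1⟩ := ih t ht
    obtain ⟨t2, ht2, e2⟩ := hH t ht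
    set u : V := (q : ℚ_[q]) ^ b • Y t with hu
    have huT : u ∈ T := hb t ht
    obtain ⟨t3, ht3, e3⟩ := hH u huT
    have hYu : (q : ℚ_[q]) ^ b • Y u ∈ T := hb u huT
    obtain ⟨d, hd⟩ := Nat.exists_eq_add_of_le hN
    have hYt : Y t = ((q : ℚ_[q]) ^ b)⁻¹ • u := by
      rw [hu, smul_smul, inv_mul_cancel₀ (pow_ne_zero _ hq0), one_smul]
    have hHY : H (Y t) = Y t + (q : ℚ_[q]) ^ N • (((q : ℚ_[q]) ^ b)⁻¹ • Y u) + (q : ℚ_[q]) ^ (N + m) • (((q : ℚ_[q]) ^ b)⁻¹ • t3) := by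
      nth_rewrite 1 [hYt]
      rw [map_smul, e3, smul_add, smul_add, ← hYt, smul_comm _ ((q : ℚ_[q]) ^ N), smul_comm _ ((q : ℚ_[q]) ^ (N + m))]
    refine ⟨t2 + (j : ℚ_[q]) • ((q : ℚ_[q]) ^ d • ((q : ℚ_[q]) ^ b • Y u)) +
      (j : ℚ_[q]) • ((q : ℚ_[q]) ^ (N - b) • t3) + H t1, ?_, ?_⟩
    · refine T.add_mem (T.add_mem (T.add_mem ht2 ?_) ?_) (hHT t1 ht1)
      · exact AP1_smul hT (AP1_nat j) (AP1_smul hT (AP1_qpow d) hYu)
      · exact AP1_smul hT (AP1_nat j) (AP1_smul hT (AP1_qpow _) ht3)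
    · rw [pow_succ']
      show H ((H ^ j) t) = _
      rw [e1, map_add, map_add, map_smul, map_smul, map_smul, e2, hHY]
      have hNb : b ≤ N := by omega
      have k1 : (q : ℚ_[q]) ^ N • ((j : ℚ_[q]) • ((q : ℚ_[q]) ^ N • (((q : ℚ_[q]) ^ b)⁻¹ • Y u))) =
          (q : ℚ_[q]) ^ (N + m) • ((j : ℚ_[q]) • ((q : ℚ_[q]) ^ d • ((q : ℚ_[q]) ^ b • Y u))) := by
        simp only [smul_smul]
        congr 1
        have : (q : ℚ_[q]) ^ N * (j * ((q : ℚ_[q]) ^ N * ((q : ℚ_[q]) ^ b)⁻¹)) =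
            ((q : ℚ_[q]) ^ (N + N) * ((q : ℚ_[q]) ^ b)⁻¹) * j := by
          rw [pow_add]; ring
        rw [this]
        have h2 : (q : ℚ_[q]) ^ (N + N) = (q : ℚ_[q]) ^ (N + m + d + b) * (q : ℚ_[q]) ^ b := by
          rw [← pow_add]
          congr 1
          omega
        rw [h2, mul_assoc ((q : ℚ_[q]) ^ (N + m + d + b)), mul_inv_cancel₀ (pow_ne_zero _ hq0), mul_one]
        rw [pow_add, pow_add (q : ℚ_[q]) (N + m) d]
        ring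
      have k2 : (q : ℚ_[q]) ^ N • ((j : ℚ_[q]) • ((q : ℚ_[q]) ^ (N + m) • (((q : ℚ_[q]) ^ b)⁻¹ • t3))) =
          (q : ℚ_[q]) ^ (N + m) • ((j : ℚ_[q]) • ((q : ℚ_[q]) ^ (N - b) • t3)) := by
        simp only [smul_smul]
        congr 1
        have h2 : (q : ℚ_[q]) ^ N = (q : ℚ_[q]) ^ (N - b) * (q : ℚ_[q]) ^ b := by
          rw [← pow_add, Nat.sub_add_cancel hNb]
        have : (q : ℚ_[q]) ^ N * (j * ((q : ℚ_[q]) ^ (N + m) * ((q : ℚ_[q]) ^ b)⁻¹)) =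
            (q : ℚ_[q]) ^ (N + m) * (j * ((q : ℚ_[q]) ^ N * ((q : ℚ_[q]) ^ b)⁻¹)) := by ring
        rw [this, h2, mul_assoc ((q : ℚ_[q]) ^ (N - b)), mul_inv_cancel₀ (pow_ne_zero _ hq0), mul_one]
      rw [smul_add, smul_add, smul_add, smul_add, k1, k2]
      push_cast
      simp only [smul_add, add_smul, one_smul]
      abel

theorem AP1 (hNRA : NRA_stmt) : AP1_stmt := by
  intro q _ k V _ _ G _ T ρ G' hT
  have hq0 : (q : ℚ_[q]) ≠ 0 := by exact_mod_cast (Fact.out : q.Prime).ne_zero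
  refine ⟨?_, ?_, ?_⟩
  · intro m
    refine ⟨0, fun N _ => ⟨1, G'.one_mem, fun i t ht => ⟨0, (T i).zero_mem, ?_⟩⟩⟩
    simp
  · intro Y Y' hY hY' m
    obtain ⟨N1, h1⟩ := hY m
    obtain ⟨N2, h2⟩ := hY' m
    choose N3 h3 using fun i => (hNRA q (V i) (T i) (hT i)).2.2.1 (Y i) (Y' i) m
    refine ⟨max (max N1 N2) (Finset.univ.sup N3), fun N hN => ?_⟩
    obtain ⟨g, hg, hgi⟩ := h1 N (le_trans (le_trans (le_max_left _ _) (le_max_left _ _)) hN)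
    obtain ⟨g', hg', hgi'⟩ := h2 N (le_trans (le_trans (le_max_right _ _) (le_max_left _ _)) hN)
    refine ⟨g * g', G'.mul_mem hg hg', fun i => ?_⟩
    have h := h3 i N (le_trans (Finset.le_sup (Finset.mem_univ i)) (le_trans (le_max_right _ _) hN)) (ρ i g) (ρ i g') (hgi i) (hgi' i)
    rw [map_mul]
    exact h
  · intro c Y hY m
    -- the denominator of `c`
    obtain ⟨a, ha⟩ : ∃ a : ℕ, ‖(q : ℚ_[q]) ^ a * c‖ ≤ 1 := by
      have hq : (1 : ℝ) < q := by exact_mod_cast (Fact.out : q.Prime).one_lt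
      obtain ⟨a, ha⟩ := pow_unbounded_of_one_lt ‖c‖ hq
      refine ⟨a, ?_⟩
      rw [norm_mul, norm_pow, Padic.norm_p, inv_pow, inv_mul_le_iff₀ (by positivity), mul_one]
      exact ha.le
    choose b0 hb0 using fun i => AP1_b hNRA (hT i) (Y i)
    set b : ℕ := Finset.univ.sup b0 with hbdef
    have hb : ∀ i, ∀ t ∈ T i, (q : ℚ_[q]) ^ b • Y i t ∈ T i := fun i t ht =>
      hb0 i b (Finset.le_sup (Finset.mem_univ i)) t ht
    set z : ℤ_[q] := ⟨(q : ℚ_[q]) ^ a * c, ha⟩ with hz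
    set e : ℕ := m + a + b with he
    set z0 : ℕ := z.appr e with hz0
    have hzz : ‖(z0 : ℚ_[q]) - (q : ℚ_[q]) ^ a * c‖ ≤ ‖(q : ℚ_[q]) ^ e‖ := by
      have h1 := PadicInt.appr_spec e z
      rw [← PadicInt.norm_le_pow_iff_mem_span_pow] at h1
      have h2 : ‖z - (z0 : ℤ_[q])‖ = ‖(z0 : ℚ_[q]) - (q : ℚ_[q]) ^ a * c‖ := by
        rw [norm_sub_rev]
        rfl
      rw [← h2, norm_pow, Padic.norm_p, inv_pow]
      rw [zpow_neg, zpow_natCast] at h1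
      exact h1
    choose N2 h2 using fun i => (hNRA q (V i) (T i) (hT i)).2.1 (Y i)
    obtain ⟨N1, h1⟩ := hY (m + a)
    refine ⟨max (max N1 (Finset.univ.sup N2)) (m + a + 2 * b) + a, fun N hN => ?_⟩
    obtain ⟨M, rfl⟩ : ∃ M, N = M + a := ⟨N - a, by omega⟩
    have hM : max (max N1 (Finset.univ.sup N2)) (m + a + 2 * b) ≤ M := by omega
    obtain ⟨g, hg, hgi⟩ := h1 M (le_trans (le_trans (le_max_left _ _) (le_max_left _ _)) hM)
    refine ⟨g ^ z0, G'.pow_mem hg _, fun i t ht => ?_⟩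
    have hN2 : N2 i ≤ M := le_trans (Finset.le_sup (Finset.mem_univ i)) (le_trans (le_trans (le_max_right _ _) (le_max_left _ _)) hM)
    have hHT := h2 i M hN2 (ρ i g) (m + a) (hgi i)
    obtain ⟨t1, ht1, e1⟩ := AP1_pow (hT i) (ρ i g) (Y i) b M (m + a) (hb i) (le_trans (le_max_right _ _) hM) (hgi i) hHT z0 t ht
    set w : ℚ_[q] := ((q : ℚ_[q]) ^ e)⁻¹ * ((z0 : ℚ_[q]) - (q : ℚ_[q]) ^ a * c) with hw
    have hw1 : ‖w‖ ≤ 1 := by
      rw [hw, norm_mul, norm_inv]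
      have hpos : 0 < ‖(q : ℚ_[q]) ^ e‖ := norm_pos_iff.mpr (pow_ne_zero _ hq0)
      rw [inv_mul_le_iff₀ hpos, mul_one]
      exact hzz
    refine ⟨t1 + w • ((q : ℚ_[q]) ^ b • Y i t), (T i).add_mem ht1 (AP1_smul (hT i) hw1 (hb i t ht)), ?_⟩
    rw [map_pow, e1]
    show t + (q : ℚ_[q]) ^ M • ((z0 : ℚ_[q]) • Y i t) + (q : ℚ_[q]) ^ (M + (m + a)) • t1 =
      t + (q : ℚ_[q]) ^ (M + a) • (c • Y i t) + (q : ℚ_[q]) ^ (M + a + m) • (t1 + w • ((q : ℚ_[q]) ^ b • Y i t))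
    have hz1 : (z0 : ℚ_[q]) = (q : ℚ_[q]) ^ a * c + (q : ℚ_[q]) ^ e * w := by
      rw [hw, ← mul_assoc, mul_inv_cancel₀ (pow_ne_zero _ hq0), one_mul]
      ring
    have k1 : (q : ℚ_[q]) ^ M • ((z0 : ℚ_[q]) • Y i t) = (q : ℚ_[q]) ^ (M + a) • (c • Y i t) +
        (q : ℚ_[q]) ^ (M + a + m) • (w • ((q : ℚ_[q]) ^ b • Y i t)) := by
      simp only [smul_smul]
      rw [← add_smul]
      congr 1
      rw [hz1, he]
      rw [pow_add, pow_add, pow_add, pow_add, pow_add]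
      ring
    rw [k1, smul_add, show M + (m + a) = M + a + m by ring]
    abel

end

end Pool.Agent.TI
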